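import Mathlib

/-!
# MP_982b0b: stubbornness is not constant on relative interiors of faces

We disprove the statement of Q1.  The counterexample is the irreducible totally real surface
`X ⊂ ℙ⁴` parametrized by `[y : x y : 1/y : x/y : x² + 1]`, and the face of the cone of nonnegative
quadrics generated by the stubborn quadric `u₄² + u₀ u₂`, whose relative interior also contains the
quadric `u₄² + u₀ u₂ + u₁ u₃`, the cube of which is a sum of squares.
-/

namespace Pool.Agent.Results.MP_982b0b_ag.StubbornFaces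

open MvPolynomial

/-- The real points of the affine cone over the projective scheme cut out by `I`:
all real vectors at which every element of `I` vanishes. -/
def realZeros {n : ℕ} (I : Ideal (MvPolynomial (Fin (n + 1)) ℝ)) : Set (Fin (n + 1) → ℝ) :=
  {v | ∀ p ∈ I, eval v p = 0}

/-- `I` is the homogeneous vanishing ideal of a totally real embedded variety `X ⊂ ℙⁿ`:
it is homogeneous and contains every polynomial vanishing at all of its real zeros
(so `I` is radical and the real points are Zariski dense). -/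
def TotallyReal {n : ℕ} (I : Ideal (MvPolynomial (Fin (n + 1)) ℝ)) : Prop :=
  (∀ p ∈ I, ∀ k : ℕ, homogeneousComponent k p ∈ I) ∧
    ∀ p : MvPolynomial (Fin (n + 1)) ℝ, (∀ v ∈ realZeros I, eval v p = 0) → p ∈ I

/-- The homogeneous coordinate ring `ℝ[X]`. -/
abbrev CoordRing {n : ℕ} (I : Ideal (MvPolynomial (Fin (n + 1)) ℝ)) : Type :=
  MvPolynomial (Fin (n + 1)) ℝ ⧸ I

/-- The graded piece `ℝ[X]_m`: classes of homogeneous polynomials of degree `m`. -/
noncomputable def forms {n : ℕ} (I : Ideal (MvPolynomial (Fin (n + 1)) ℝ)) (m : ℕ) :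
    Submodule ℝ (CoordRing I) :=
  (homogeneousSubmodule (Fin (n + 1)) ℝ m).map (Ideal.Quotient.mkₐ ℝ I).toLinearMap

/-- The value of an element of the coordinate ring at a real point of the affine cone. -/
noncomputable def value {n : ℕ} {I : Ideal (MvPolynomial (Fin (n + 1)) ℝ)}
    (v : realZeros I) : CoordRing I →+* ℝ :=
  Ideal.Quotient.lift I (eval v.1) (fun p hp => v.2 p hp)

/-- Nonnegativity at all real points. -/
def Nonneg {n : ℕ} (I : Ideal (MvPolynomial (Fin (n + 1)) ℝ)) (F : CoordRing I) : Prop :=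
  ∀ v : realZeros I, 0 ≤ value v F

/-- `F` is a sum of squares of elements of `ℝ[X]_m`. -/
def IsSOS {n : ℕ} (I : Ideal (MvPolynomial (Fin (n + 1)) ℝ)) (m : ℕ) (F : CoordRing I) : Prop :=
  ∃ (r : ℕ) (G : Fin r → CoordRing I), (∀ j, G j ∈ forms I m) ∧ F = ∑ j, G j ^ 2

/-- `F ∈ ℝ[X]_{2m}` is stubborn: it is nonnegative and no odd power of it is a sum of squares. -/
def Stubborn {n : ℕ} (I : Ideal (MvPolynomial (Fin (n + 1)) ℝ)) (m : ℕ) (F : CoordRing I) :
    Prop :=
  F ∈ forms I (2 * m) ∧ Nonneg I F ∧ ∀ k : ℕ, Odd k → ¬ IsSOS I (m * k) (F ^ k)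

/-- The cone `P_X ⊂ ℝ[X]₂` of nonnegative quadratic forms. -/
def nonnegQuadrics {n : ℕ} (I : Ideal (MvPolynomial (Fin (n + 1)) ℝ)) : Set (CoordRing I) :=
  {F | F ∈ forms I (2 * 1) ∧ Nonneg I F}

/-- A (nonempty) face of a convex set `P`: a convex extreme subset. -/
def IsFace {E : Type} [AddCommGroup E] [Module ℝ E] (P C : Set E) : Prop :=
  C.Nonempty ∧ Convex ℝ C ∧ IsExtreme ℝ P C

/-- The relative interior of a convex set, by the usual criterion: every segment in `C` that
ends at `x` can be prolonged beyond `x` inside `C`. -/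
def relInterior {E : Type} [AddCommGroup E] [Module ℝ E] (C : Set E) : Set E :=
  {x | x ∈ C ∧ ∀ y ∈ C, ∃ ε : ℝ, 0 < ε ∧ x + ε • (x - y) ∈ C}

/-! ### The surface -/

/-- The parametrized points. -/
noncomputable def pt (s x y : ℝ) : Fin 5 → ℝ :=
  ![s * y, s * (x * y), s * y⁻¹, s * (x * y⁻¹), s * (x ^ 2 + 1)]

/-- The polynomial version of the parametrization (with `s` replaced by `s y`), with variables
`x = X 0`, `y = X 1`, `s = X 2`. -/
noncomputable def ppt : Fin 5 → MvPolynomial (Fin 3) ℝ :=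
  ![X 2 * X 1 ^ 2, X 2 * (X 0 * X 1 ^ 2), X 2, X 2 * X 0, X 2 * (X 1 * (X 0 ^ 2 + 1))]

/-- The ideal of the surface. -/
noncomputable def surf : Ideal (MvPolynomial (Fin (4 + 1)) ℝ) :=
  RingHom.ker (aeval ppt : MvPolynomial (Fin 5) ℝ →ₐ[ℝ] MvPolynomial (Fin 3) ℝ).toRingHom

lemma mem_surf_iff (p : MvPolynomial (Fin 5) ℝ) :
    p ∈ surf ↔ ∀ s x y : ℝ, y ≠ 0 → eval (pt s x y) p = 0 := by
  have key : ∀ s x y : ℝ, eval ![x, y, s] (aeval ppt p) =
      eval ![s * y ^ 2, s * (x * y ^ 2), s, s * x, s * (y * (x ^ 2 + 1))] p := by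
    intro s x y
    have h1 : eval ![x, y, s] (aeval ppt p) = eval (fun i => eval ![x, y, s] (ppt i)) p := by
      exact comp_aeval_apply (f := ppt) (aeval ![x, y, s]) p
    rw [h1]
    congr 1
    congr 1
    funext i
    fin_cases i <;> simp [ppt]
  unfold surf
  rw [RingHom.mem_ker]
  change aeval ppt p = 0 ↔ _
  constructor
  · intro h s x y hy
    have h2 := key (s * y⁻¹) x y
    rw [h] at h2
    simp only [map_zero] at h2
    rw [h2]
    congr 1
    congr 1
    unfold pt
    funext i
    fin_cases i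
    · simp; field_simp
    · simp; field_simp
    · simp
    · simp; ring
    · simp; field_simp
  · intro h
    have h3 : X 1 * aeval ppt p = 0 := by
      apply MvPolynomial.funext
      intro v
      rw [map_mul, map_zero, eval_X]
      by_cases hy : v 1 = 0
      · rw [hy, zero_mul]
      · have h4 := key (v 2) (v 0) (v 1)
        have h5 : (![v 0, v 1, v 2] : Fin 3 → ℝ) = v := by
          funext i
          fin_cases i <;> rfl
        rw [h5] at h4
        rw [h4]
        have h6 := h (v 2 * v 1) (v 0) (v 1) hy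
        have h7 : pt (v 2 * v 1) (v 0) (v 1) = ![v 2 * v 1 ^ 2, v 2 * (v 0 * v 1 ^ 2), v 2,
            v 2 * v 0, v 2 * (v 1 * (v 0 ^ 2 + 1))] := by
          unfold pt
          funext i
          fin_cases i
          · simp; ring
          · simp; ring
          · simp; field_simp
          · simp; field_simp
          · simp; ring
        rw [h7] at h6
        rw [h6, mul_zero]
    rcases mul_eq_zero.mp h3 with h4 | h4
    · exact absurd h4 (MvPolynomial.X_ne_zero _)
    · exact h4

lemma surf_prime : surf.IsPrime := by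
  unfold surf
  exact RingHom.ker_isPrime _

lemma pt_mem (s x y : ℝ) (hy : y ≠ 0) : pt s x y ∈ realZeros surf := by
  intro p hp
  exact (mem_surf_iff p).mp hp s x y hy

/-- Homogeneous polynomials scale. -/
lemma aeval_scale {A : Type} [CommRing A] [Algebra ℝ A] {p : MvPolynomial (Fin 5) ℝ} {m : ℕ}
    (hp : p.IsHomogeneous m) (t : A) (v : Fin 5 → A) :
    aeval (fun i => t * v i) p = t ^ m * aeval v p := by
  rw [aeval_def, eval₂_eq', aeval_def, eval₂_eq', Finset.mul_sum]
  apply Finset.sum_congr rfl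
  intro d hd
  have hdeg : ∑ i, d i = m := by
    by_contra hne
    rw [← Finsupp.degree_eq_sum] at hne
    exact (mem_support_iff.mp hd) (hp.coeff_eq_zero hne)
  have h1 : ∏ i, (t * v i) ^ d i = t ^ m * ∏ i, v i ^ d i := by
    rw [← hdeg, ← Finset.prod_pow_eq_pow_sum, ← Finset.prod_mul_distrib]
    apply Finset.prod_congr rfl
    intro i _
    rw [mul_pow]
  rw [h1]
  ring

lemma eval_scale {p : MvPolynomial (Fin 5) ℝ} {m : ℕ}
    (hp : p.IsHomogeneous m) (t : ℝ) (v : Fin 5 → ℝ) :
    eval (fun i => t * v i) p = t ^ m * eval v p :=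
  aeval_scale hp t v

lemma surf_totallyReal : TotallyReal surf := by
  refine ⟨?_, ?_⟩
  · intro p hp k
    rw [mem_surf_iff] at hp ⊢
    intro s x y hy
    -- the polynomial in a scaling parameter
    set q : Polynomial ℝ := ∑ i ∈ Finset.range (p.totalDegree + 1),
      Polynomial.C (eval (pt s x y) (homogeneousComponent i p)) * Polynomial.X ^ i with hq
    have hq0 : q = 0 := by
      apply Polynomial.funext
      intro t
      rw [hq, Polynomial.eval_finsetSum]
      simp only [Polynomial.eval_mul, Polynomial.eval_C, Polynomial.eval_pow, Polynomial.eval_X,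
        Polynomial.eval_zero]
      have h1 := hp (t * s) x y hy
      have h2 : pt (t * s) x y = fun i => t * pt s x y i := by
        unfold pt
        funext i
        fin_cases i <;> simp <;> ring
      rw [h2, ← sum_homogeneousComponent p, map_sum] at h1
      rw [← h1]
      apply Finset.sum_congr rfl
      intro i _
      rw [eval_scale (homogeneousComponent_isHomogeneous i p), mul_comm]
    by_cases hk : k < p.totalDegree + 1
    · have h5 := congrArg (fun f => Polynomial.coeff f k) hq0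
      simp only [hq, Polynomial.finsetSum_coeff, Polynomial.coeff_C_mul_X_pow,
        Polynomial.coeff_zero] at h5
      rw [Finset.sum_eq_single k] at h5
      · simpa using h5
      · intro b _ hb
        rw [if_neg (Ne.symm hb)]
      · intro hk'
        exact absurd (Finset.mem_range.mpr hk) hk'
    · rw [homogeneousComponent_eq_zero k p (by omega), map_zero]
  · intro p hp
    rw [mem_surf_iff]
    intro s x y hy
    exact hp _ (pt_mem s x y hy)

/-! ### Sums of squares of univariate polynomials -/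

lemma sq_sum_const {r : ℕ} (q : Fin r → Polynomial ℝ) (c : ℝ)
    (h : ∑ j, q j ^ 2 = Polynomial.C c) (j : Fin r) : ∃ d : ℝ, q j = Polynomial.C d := by
  have hb : Filter.IsBoundedUnder (· ≤ ·) Filter.atTop
      (fun x => |Polynomial.eval x (q j)|) := by
    refine ⟨c + 1, ?_⟩
    rw [Filter.eventually_map]
    apply Filter.Eventually.of_forall
    intro x
    have h1 : ∑ i, (Polynomial.eval x (q i)) ^ 2 = c := by
      have h2 := congrArg (Polynomial.eval x) h
      rw [Polynomial.eval_finsetSum, Polynomial.eval_C] at h2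
      simpa using h2
    have h2 : (Polynomial.eval x (q j)) ^ 2 ≤ c := by
      rw [← h1]
      exact Finset.single_le_sum (f := fun i => (Polynomial.eval x (q i)) ^ 2)
        (fun i _ => sq_nonneg _) (Finset.mem_univ j)
    have h3 : |Polynomial.eval x (q j)| ^ 2 ≤ c := by rwa [sq_abs]
    nlinarith [abs_nonneg (Polynomial.eval x (q j)), sq_nonneg (|Polynomial.eval x (q j)| - 1)]
  have hd := (Polynomial.isBoundedUnder_abs_atTop_iff (q j)).mp hb
  exact ⟨_, Polynomial.eq_C_of_degree_le_zero hd⟩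

lemma sq_sum_pow {r : ℕ} (c : ℝ) : ∀ (m : ℕ) (q : Fin r → Polynomial ℝ),
    ∑ j, q j ^ 2 = Polynomial.C c * Polynomial.X ^ (2 * m) →
    ∀ j, ∃ d : ℝ, q j = Polynomial.C d * Polynomial.X ^ m := by
  intro m
  induction m with
  | zero =>
    intro q h j
    rw [mul_zero, pow_zero, mul_one] at h
    obtain ⟨d, hd⟩ := sq_sum_const q c h j
    exact ⟨d, by rw [hd, pow_zero, mul_one]⟩
  | succ m ih =>
    intro q h j
    have h0 : ∀ i, Polynomial.eval 0 (q i) = 0 := by
      have h1 := congrArg (Polynomial.eval 0) h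
      rw [Polynomial.eval_finsetSum] at h1
      simp only [Polynomial.eval_mul, Polynomial.eval_C, Polynomial.eval_pow,
        Polynomial.eval_X] at h1
      rw [zero_pow (by omega), mul_zero] at h1
      intro i
      have h2 := (Finset.sum_eq_zero_iff_of_nonneg (fun i _ => sq_nonneg _)).mp h1 i
        (Finset.mem_univ i)
      exact pow_eq_zero_iff (two_ne_zero) |>.mp h2
    have h1 : ∀ i, ∃ p : Polynomial ℝ, q i = Polynomial.X * p := by
      intro i
      have h2 : Polynomial.X ∣ q i := by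
        rw [Polynomial.X_dvd_iff, Polynomial.coeff_zero_eq_eval_zero]
        exact h0 i
      exact h2
    choose p hp using h1
    have h2 : ∑ i, p i ^ 2 = Polynomial.C c * Polynomial.X ^ (2 * m) := by
      have h3 : (Polynomial.X : Polynomial ℝ) ^ 2 * ∑ i, p i ^ 2 =
          Polynomial.X ^ 2 * (Polynomial.C c * Polynomial.X ^ (2 * m)) := by
        have h4 : (Polynomial.X : Polynomial ℝ) ^ 2 * ∑ i, p i ^ 2 = ∑ i, q i ^ 2 := by
          rw [Finset.mul_sum]
          apply Finset.sum_congr rfl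
          intro i _
          rw [hp i]
          ring
        rw [h4, h]
        ring
      exact mul_left_cancel₀ (pow_ne_zero 2 Polynomial.X_ne_zero) h3
    obtain ⟨d, hd⟩ := ih p h2 j
    refine ⟨d, ?_⟩
    rw [hp j, hd]
    ring

/-! ### The two quadrics -/

/-- `u₄² + u₀ u₂`. -/
noncomputable def f : MvPolynomial (Fin 5) ℝ := X 4 ^ 2 + X 0 * X 2

/-- `u₄² + u₀ u₂ + u₁ u₃`. -/
noncomputable def f' : MvPolynomial (Fin 5) ℝ := X 4 ^ 2 + X 0 * X 2 + X 1 * X 3

/-- The class of `f` in the coordinate ring. -/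
noncomputable def F : CoordRing surf := Ideal.Quotient.mk surf f

/-- The class of `f'` in the coordinate ring. -/
noncomputable def F' : CoordRing surf := Ideal.Quotient.mk surf f'

lemma relA : (X 0 * X 3 - X 1 * X 2 : MvPolynomial (Fin 5) ℝ) ∈ surf := by
  rw [mem_surf_iff]
  intro s x y hy
  simp [pt]
  field_simp
  ring

lemma relB : (X 4 ^ 2 * (X 0 * X 2) - (X 0 * X 2 + X 1 * X 3) ^ 2 :
    MvPolynomial (Fin 5) ℝ) ∈ surf := by
  rw [mem_surf_iff]
  intro s x y hy
  simp [pt]
  field_simp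
  ring

lemma zeros_facts (v : Fin 5 → ℝ) (hv : v ∈ realZeros surf) :
    0 ≤ v 0 * v 2 ∧ 0 ≤ v 1 * v 3 ∧ v 1 * v 3 ≤ v 4 ^ 2 + v 0 * v 2 := by
  have hA := hv _ relA
  have hB := hv _ relB
  simp at hA hB
  have hA' : v 0 * v 3 = v 1 * v 2 := by linarith
  set a := v 0 * v 2 with ha
  set b := v 1 * v 3 with hb
  have hB' : v 4 ^ 2 * a = (a + b) ^ 2 := by linarith
  have hab : 0 ≤ a * b := by
    have : a * b = (v 0 * v 3) ^ 2 := by
      rw [ha, hb, sq]
      nth_rewrite 2 [hA']
      ring
    rw [this]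
    positivity
  have ha0 : 0 ≤ a := by
    by_contra hneg
    push Not at hneg
    have h1 : v 4 ^ 2 * a ≤ 0 := mul_nonpos_of_nonneg_of_nonpos (sq_nonneg _) hneg.le
    have h2 : (a + b) ^ 2 = 0 := le_antisymm (by linarith) (sq_nonneg _)
    have h3 : a + b = 0 := pow_eq_zero_iff (two_ne_zero) |>.mp h2
    have h4 : b = -a := by linarith
    rw [h4] at hab
    nlinarith
  rcases ha0.eq_or_lt with h0 | hpos
  · rw [← h0] at hB'
    have h2 : (0 + b) ^ 2 = 0 := by linarith
    have h3 : b = 0 := by simpa using h2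
    rw [h3]
    refine ⟨by linarith, le_refl _, ?_⟩
    rw [← h0]
    positivity
  · have hb0 : 0 ≤ b := by
      by_contra hneg
      push Not at hneg
      nlinarith
    refine ⟨ha0, hb0, ?_⟩
    have h1 : b * a ≤ (v 4 ^ 2 + a) * a := by nlinarith
    exact le_of_mul_le_mul_right h1 hpos

lemma value_mk (v : realZeros surf) (p : MvPolynomial (Fin 5) ℝ) :
    value v (Ideal.Quotient.mk surf p) = eval v.1 p := by
  unfold value
  rw [Ideal.Quotient.lift_mk]

lemma value_F (v : realZeros surf) : value v F = v.1 4 ^ 2 + v.1 0 * v.1 2 := by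
  unfold F
  rw [value_mk]
  simp [f]

lemma value_F' (v : realZeros surf) :
    value v F' = v.1 4 ^ 2 + v.1 0 * v.1 2 + v.1 1 * v.1 3 := by
  unfold F'
  rw [value_mk]
  simp [f']

lemma F_mem : F ∈ forms surf (2 * 1) := by
  refine ⟨f, ?_, rfl⟩
  change f.IsHomogeneous (2 * 1)
  unfold f
  apply IsHomogeneous.add
  · exact (isHomogeneous_X ℝ 4).pow 2
  · exact (isHomogeneous_X ℝ 0).mul (isHomogeneous_X ℝ 2)

lemma F'_mem : F' ∈ forms surf (2 * 1) := by
  refine ⟨f', ?_, rfl⟩
  change f'.IsHomogeneous (2 * 1)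
  unfold f'
  apply IsHomogeneous.add
  · apply IsHomogeneous.add
    · exact (isHomogeneous_X ℝ 4).pow 2
    · exact (isHomogeneous_X ℝ 0).mul (isHomogeneous_X ℝ 2)
  · exact (isHomogeneous_X ℝ 1).mul (isHomogeneous_X ℝ 3)

lemma F_nonneg : Nonneg surf F := by
  intro v
  rw [value_F]
  have := (zeros_facts v.1 v.2).1
  positivity

lemma F'_nonneg : Nonneg surf F' := by
  intro v
  rw [value_F']
  have h1 := (zeros_facts v.1 v.2).1
  have h2 := (zeros_facts v.1 v.2).2.1
  positivity

/-! ### `F` is stubborn -/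

theorem F_stubborn : Stubborn surf 1 F := by
  refine ⟨F_mem, F_nonneg, ?_⟩
  rintro k hk ⟨r, G, hG, hsum⟩
  rw [one_mul] at hG
  have hl : ∀ j, ∃ g : MvPolynomial (Fin 5) ℝ, g.IsHomogeneous k ∧
      Ideal.Quotient.mk surf g = G j := by
    intro j
    obtain ⟨g, hg, hgj⟩ := hG j
    exact ⟨g, hg, hgj⟩
  choose g hg hgG using hl
  have hmem : f ^ k - ∑ j, g j ^ 2 ∈ surf := by
    rw [← Ideal.Quotient.eq_zero_iff_mem, map_sub, map_pow, map_sum, sub_eq_zero]
    simp only [map_pow, hgG]
    exact hsum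
  rw [mem_surf_iff] at hmem
  -- the identity on the parametrized points
  have hid : ∀ x y : ℝ, y ≠ 0 →
      ((x ^ 2 + 1) ^ 2 + 1) ^ k = ∑ j, (eval (pt 1 x y) (g j)) ^ 2 := by
    intro x y hy
    have h1 := hmem 1 x y hy
    rw [map_sub, map_pow, map_sum] at h1
    have h2 : eval (pt 1 x y) f = (x ^ 2 + 1) ^ 2 + 1 := by
      simp [f, pt, hy]
    rw [h2] at h1
    simp only [map_pow] at h1
    linarith
  -- independence of `y`
  have hanti : ∀ (j : Fin r) (x : ℝ), eval ![1, x, 1, x, x ^ 2 + 1] (g j) =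
      - eval ![1, x, 1, x, -(x ^ 2 + 1)] (g j) := by
    intro j x
    set Q : Fin r → Polynomial ℝ := fun i => aeval ![Polynomial.X ^ 2,
      Polynomial.C x * Polynomial.X ^ 2, 1, Polynomial.C x,
      Polynomial.C (x ^ 2 + 1) * Polynomial.X] (g i) with hQ
    have hQe : ∀ (i : Fin r) (y : ℝ), Polynomial.eval y (Q i) =
        eval ![y ^ 2, x * y ^ 2, 1, x, (x ^ 2 + 1) * y] (g i) := by
      intro i y
      rw [hQ]
      simp only
      have h1 := comp_aeval_apply (f := ![Polynomial.X ^ 2,
        Polynomial.C x * Polynomial.X ^ 2, 1, Polynomial.C x,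
        Polynomial.C (x ^ 2 + 1) * Polynomial.X]) (Polynomial.aeval y) (g i)
      rw [Polynomial.coe_aeval_eq_eval] at h1
      rw [h1, aeval_eq_eval]
      congr 1
      congr 1
      funext l
      fin_cases l <;> simp
    have hQy : ∀ (i : Fin r) (y : ℝ), y ≠ 0 → Polynomial.eval y (Q i) =
        y ^ k * eval (pt 1 x y) (g i) := by
      intro i y hy
      rw [hQe, ← eval_scale (hg i)]
      congr 1
      congr 1
      funext l
      fin_cases l
      · simp [pt]; ring
      · simp [pt]; ring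
      · simp [pt, hy]
      · simp [pt]; field_simp
      · simp [pt]; ring
    have hsq : ∑ i, Q i ^ 2 =
        Polynomial.C (((x ^ 2 + 1) ^ 2 + 1) ^ k) * Polynomial.X ^ (2 * k) := by
      have h1 : Polynomial.X * (∑ i, Q i ^ 2 -
          Polynomial.C (((x ^ 2 + 1) ^ 2 + 1) ^ k) * Polynomial.X ^ (2 * k)) = 0 := by
        apply Polynomial.funext
        intro y
        rw [Polynomial.eval_mul, Polynomial.eval_X, Polynomial.eval_zero]
        by_cases hy : y = 0
        · rw [hy, zero_mul]
        · rw [Polynomial.eval_sub, Polynomial.eval_finsetSum, Polynomial.eval_mul,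
            Polynomial.eval_C, Polynomial.eval_pow, Polynomial.eval_X, hid x y hy]
          simp only [Polynomial.eval_pow, hQy _ y hy]
          have h2 : ∑ i, (y ^ k * eval (pt 1 x y) (g i)) ^ 2 =
              (∑ j, eval (pt 1 x y) (g j) ^ 2) * y ^ (2 * k) := by
            rw [Finset.sum_mul]
            apply Finset.sum_congr rfl
            intro i _
            ring
          rw [h2, sub_self, mul_zero]
      rcases mul_eq_zero.mp h1 with h2 | h2
      · exact absurd h2 Polynomial.X_ne_zero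
      · exact sub_eq_zero.mp h2
    obtain ⟨d, hd⟩ := sq_sum_pow _ k Q hsq j
    have e1 := hQe j 1
    have e2 := hQe j (-1)
    rw [hd, Polynomial.eval_mul, Polynomial.eval_C, Polynomial.eval_pow, Polynomial.eval_X] at e1 e2
    rw [one_pow, mul_one] at e1
    rw [hk.neg_one_pow] at e2
    have v1 : (![(1 : ℝ) ^ 2, x * 1 ^ 2, 1, x, (x ^ 2 + 1) * 1] : Fin 5 → ℝ) =
        ![1, x, 1, x, x ^ 2 + 1] := by
      funext l
      fin_cases l <;> simp
    have v2 : (![(-1 : ℝ) ^ 2, x * (-1) ^ 2, 1, x, (x ^ 2 + 1) * (-1)] : Fin 5 → ℝ) =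
        ![1, x, 1, x, -(x ^ 2 + 1)] := by
      funext l
      fin_cases l <;> simp
    rw [one_pow] at v1
    rw [v2] at e2
    simp only [one_pow, mul_one] at e1
    rw [← e1, ← e2]
    ring
  -- pass to polynomials in `x`
  set A : Fin r → Polynomial ℝ := fun i => aeval ![1, Polynomial.X, 1, Polynomial.X,
    Polynomial.X ^ 2 + 1] (g i) with hA
  set B : Fin r → Polynomial ℝ := fun i => aeval ![1, Polynomial.X, 1, Polynomial.X,
    -(Polynomial.X ^ 2 + 1)] (g i) with hB
  have hAe : ∀ (i : Fin r) (x : ℝ), Polynomial.eval x (A i) =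
      eval ![1, x, 1, x, x ^ 2 + 1] (g i) := by
    intro i x
    rw [hA]
    simp only
    have h1 := comp_aeval_apply (f := ![1, Polynomial.X, 1, Polynomial.X,
      Polynomial.X ^ 2 + 1]) (Polynomial.aeval x) (g i)
    rw [Polynomial.coe_aeval_eq_eval] at h1
    rw [h1, aeval_eq_eval]
    congr 1
    congr 1
    funext l
    fin_cases l <;> simp
  have hBe : ∀ (i : Fin r) (x : ℝ), Polynomial.eval x (B i) =
      eval ![1, x, 1, x, -(x ^ 2 + 1)] (g i) := by
    intro i x
    rw [hB]
    simp only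
    have h1 := comp_aeval_apply (f := ![1, Polynomial.X, 1, Polynomial.X,
      -(Polynomial.X ^ 2 + 1)]) (Polynomial.aeval x) (g i)
    rw [Polynomial.coe_aeval_eq_eval] at h1
    rw [h1, aeval_eq_eval]
    congr 1
    congr 1
    funext l
    fin_cases l <;> simp
  have hAB : ∀ i, A i = - B i := by
    intro i
    apply Polynomial.funext
    intro x
    rw [Polynomial.eval_neg, hAe, hBe, hanti]
  have hAI : ∀ i, Polynomial.aeval Complex.I (A i) = 0 := by
    intro i
    have h1 := comp_aeval_apply (f := ![1, Polynomial.X, 1, Polynomial.X,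
      Polynomial.X ^ 2 + 1]) (Polynomial.aeval (R := ℝ) Complex.I) (g i)
    have h2 := comp_aeval_apply (f := ![1, Polynomial.X, 1, Polynomial.X,
      -(Polynomial.X ^ 2 + 1)]) (Polynomial.aeval (R := ℝ) Complex.I) (g i)
    have h3 : (fun l => (Polynomial.aeval (R := ℝ) Complex.I) ((![1, Polynomial.X, 1, Polynomial.X,
        Polynomial.X ^ 2 + 1] : Fin 5 → Polynomial ℝ) l)) =
        (fun l => (Polynomial.aeval (R := ℝ) Complex.I) ((![1, Polynomial.X, 1, Polynomial.X,
        -(Polynomial.X ^ 2 + 1)] : Fin 5 → Polynomial ℝ) l)) := by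
      funext l
      fin_cases l <;> simp
    rw [h3] at h1
    rw [← h2] at h1
    have h4 : Polynomial.aeval Complex.I (A i) = Polynomial.aeval Complex.I (B i) := h1
    have h5 : Polynomial.aeval Complex.I (A i) = - Polynomial.aeval Complex.I (B i) := by
      rw [hAB i, map_neg]
    rw [← h4] at h5
    have h6 : (2 : ℂ) * Polynomial.aeval Complex.I (A i) = 0 := by linear_combination h5
    rcases mul_eq_zero.mp h6 with h7 | h7
    · norm_num at h7
    · exact h7
  have hfin : ((Polynomial.X ^ 2 + 1) ^ 2 + 1 : Polynomial ℝ) ^ k = ∑ j, A j ^ 2 := by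
    apply Polynomial.funext
    intro x
    rw [Polynomial.eval_finsetSum]
    simp only [Polynomial.eval_pow, Polynomial.eval_add, Polynomial.eval_X, Polynomial.eval_one,
      hAe]
    rw [hid x 1 one_ne_zero]
    apply Finset.sum_congr rfl
    intro j _
    congr 2
    congr 1
    funext l
    fin_cases l <;> simp [pt]
  have hc := congrArg (Polynomial.aeval Complex.I) hfin
  simp [hAI] at hc

/-! ### The cube of `F'` is a sum of squares -/

lemma mem_forms {p : MvPolynomial (Fin 5) ℝ} {m : ℕ} (hp : p.IsHomogeneous m) :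
    Ideal.Quotient.mk surf p ∈ forms surf m := ⟨p, hp, rfl⟩

/-- The forms in the certificate. -/
noncomputable def cert : Fin 6 → MvPolynomial (Fin 5) ℝ :=
  ![X 4 ^ 3 + C (3 / 2) * (X 4 * (X 0 * X 2 + X 1 * X 3)),
    C (1 / 2) * (X 4 * (X 0 * X 2 + X 1 * X 3)),
    C (1 / 2) * (X 4 * (X 0 * X 2 + X 1 * X 3)),
    C (1 / 2) * (X 4 * (X 0 * X 2 + X 1 * X 3)),
    X 4 * (X 0 * X 3),
    X 4 * (X 0 * X 2)]

lemma cert_hom (i : Fin 6) : (cert i).IsHomogeneous 3 := by
  have hX : ∀ i : Fin 5, (X i : MvPolynomial (Fin 5) ℝ).IsHomogeneous 1 :=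
    fun i => isHomogeneous_X ℝ i
  have h1 : (X 4 * (X 0 * X 2 + X 1 * X 3) : MvPolynomial (Fin 5) ℝ).IsHomogeneous 3 :=
    (hX 4).mul (((hX 0).mul (hX 2)).add ((hX 1).mul (hX 3)))
  have h2 : (X 4 ^ 3 : MvPolynomial (Fin 5) ℝ).IsHomogeneous 3 := (hX 4).pow 3
  have h3 : (X 4 * (X 0 * X 3) : MvPolynomial (Fin 5) ℝ).IsHomogeneous 3 :=
    (hX 4).mul ((hX 0).mul (hX 3))
  have h4 : (X 4 * (X 0 * X 2) : MvPolynomial (Fin 5) ℝ).IsHomogeneous 3 :=
    (hX 4).mul ((hX 0).mul (hX 2))
  fin_cases i
  · exact h2.add (h1.C_mul _)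
  · exact h1.C_mul _
  · exact h1.C_mul _
  · exact h1.C_mul _
  · exact h3
  · exact h4

theorem F'_cube : IsSOS surf (1 * 3) (F' ^ 3) := by
  refine ⟨6, fun j => Ideal.Quotient.mk surf (cert j), fun j => mem_forms (cert_hom j), ?_⟩
  have hmem : f' ^ 3 - ∑ j, cert j ^ 2 ∈ surf := by
    rw [mem_surf_iff]
    intro s x y hy
    rw [map_sub, map_sum]
    simp [Fin.sum_univ_succ, cert, f', pt]
    field_simp
    ring
  rw [← Ideal.Quotient.eq_zero_iff_mem, map_sub, map_pow, map_sum, sub_eq_zero] at hmem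
  simp only [map_pow] at hmem
  exact hmem

/-! ### The face -/

/-- The face generated by `F`. -/
def face : Set (CoordRing surf) :=
  {G | G ∈ nonnegQuadrics surf ∧ ∃ c : ℝ, ∀ v : realZeros surf, value v G ≤ c * value v F}

lemma value_smul (v : realZeros surf) (c : ℝ) (G : CoordRing surf) :
    value v (c • G) = c * value v G := by
  obtain ⟨g, rfl⟩ := Ideal.Quotient.mk_surjective G
  have h : c • (Ideal.Quotient.mk surf g) = Ideal.Quotient.mk surf (c • g) := rfl
  rw [h, value_mk, value_mk, smul_eval]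

lemma comb_mem {G H : CoordRing surf} (hG : G ∈ forms surf (2 * 1)) (hH : H ∈ forms surf (2 * 1))
    (a b : ℝ) : a • G + b • H ∈ forms surf (2 * 1) :=
  Submodule.add_mem _ (Submodule.smul_mem _ _ hG) (Submodule.smul_mem _ _ hH)

lemma face_isFace : IsFace (nonnegQuadrics surf) face := by
  refine ⟨⟨F, ⟨F_mem, F_nonneg⟩, 1, fun v => by rw [one_mul]⟩, ?_, ?_⟩
  · rintro G ⟨⟨hG1, hG2⟩, c, hc⟩ H ⟨⟨hH1, hH2⟩, d, hd⟩ a b ha hb _
    refine ⟨⟨comb_mem hG1 hH1 a b, ?_⟩, a * c + b * d, ?_⟩
    · intro v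
      rw [map_add, value_smul, value_smul]
      have := hG2 v
      have := hH2 v
      positivity
    · intro v
      rw [map_add, value_smul, value_smul]
      have h1 := mul_le_mul_of_nonneg_left (hc v) ha
      have h2 := mul_le_mul_of_nonneg_left (hd v) hb
      nlinarith
  · refine ⟨fun G hG => hG.1, ?_⟩
    rintro G ⟨hG1, hG2⟩ H ⟨hH1, hH2⟩ K ⟨⟨hK1, hK2⟩, c, hc⟩ ⟨a, b, ha, hb, hab, rfl⟩
    refine ⟨⟨hG1, hG2⟩, c / a, ?_⟩
    intro v
    have h1 := hc v
    rw [map_add, value_smul, value_smul] at h1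
    have h2 : a * value v G ≤ c * value v F := by
      have := mul_nonneg hb.le (hH2 v)
      linarith
    rw [div_mul_eq_mul_div, le_div_iff₀ ha]
    linarith

lemma F_relInt : F ∈ relInterior face := by
  refine ⟨⟨⟨F_mem, F_nonneg⟩, 1, fun v => by rw [one_mul]⟩, ?_⟩
  rintro G ⟨⟨hG1, hG2⟩, c, hc⟩
  have hpos : 0 < |c| + 1 := by positivity
  refine ⟨(|c| + 1)⁻¹, by positivity, ?_⟩
  set ε : ℝ := (|c| + 1)⁻¹ with hε
  have hεpos : 0 < ε := by positivity
  have hεc : ε * c ≤ 1 := by
    have h1 : ε * (|c| + 1) = 1 := by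
      rw [hε]
      exact inv_mul_cancel₀ hpos.ne'
    have h2 : c ≤ |c| + 1 := (le_abs_self c).trans (by linarith)
    calc ε * c ≤ ε * (|c| + 1) := mul_le_mul_of_nonneg_left h2 hεpos.le
      _ = 1 := h1
  have hform : F + ε • (F - G) = (1 + ε) • F + (-ε) • G := by
    rw [smul_sub, add_smul, one_smul, neg_smul]
    abel
  rw [hform]
  refine ⟨⟨comb_mem F_mem hG1 _ _, ?_⟩, 1 + ε, ?_⟩
  · intro v
    rw [map_add, value_smul, value_smul]
    have h1 := hc v
    have h2 := F_nonneg v
    have h3 : ε * value v G ≤ ε * (c * value v F) := mul_le_mul_of_nonneg_left h1 hεpos.le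
    have h4 : (ε * c) * value v F ≤ 1 * value v F := mul_le_mul_of_nonneg_right hεc h2
    have h5 := mul_nonneg hεpos.le h2
    nlinarith
  · intro v
    rw [map_add, value_smul, value_smul]
    have h5 := mul_nonneg hεpos.le (hG2 v)
    linarith

lemma F_le (v : realZeros surf) : value v F ≤ value v F' := by
  rw [value_F, value_F']
  have := (zeros_facts v.1 v.2).2.1
  linarith

lemma F'_le (v : realZeros surf) : value v F' ≤ 2 * value v F := by
  rw [value_F, value_F']
  have := (zeros_facts v.1 v.2).2.2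
  linarith

lemma F'_relInt : F' ∈ relInterior face := by
  refine ⟨⟨⟨F'_mem, F'_nonneg⟩, 2, F'_le⟩, ?_⟩
  rintro G ⟨⟨hG1, hG2⟩, c, hc⟩
  have hpos : 0 < |c| + 1 := by positivity
  refine ⟨(|c| + 1)⁻¹, by positivity, ?_⟩
  set ε : ℝ := (|c| + 1)⁻¹ with hε
  have hεpos : 0 < ε := by positivity
  have hεc : ε * c ≤ 1 := by
    have h1 : ε * (|c| + 1) = 1 := by
      rw [hε]
      exact inv_mul_cancel₀ hpos.ne'
    have h2 : c ≤ |c| + 1 := (le_abs_self c).trans (by linarith)
    calc ε * c ≤ ε * (|c| + 1) := mul_le_mul_of_nonneg_left h2 hεpos.le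
      _ = 1 := h1
  have hform : F' + ε • (F' - G) = (1 + ε) • F' + (-ε) • G := by
    rw [smul_sub, add_smul, one_smul, neg_smul]
    abel
  rw [hform]
  refine ⟨⟨comb_mem F'_mem hG1 _ _, ?_⟩, 2 * (1 + ε), ?_⟩
  · intro v
    rw [map_add, value_smul, value_smul]
    have h1 := hc v
    have h2 := F_nonneg v
    have h3 : ε * value v G ≤ ε * (c * value v F) := mul_le_mul_of_nonneg_left h1 hεpos.le
    have h4 : (ε * c) * value v F ≤ 1 * value v F := mul_le_mul_of_nonneg_right hεc h2
    have h5 := mul_nonneg hεpos.le (h2.trans (F_le v))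
    have h6 := F_le v
    nlinarith
  · intro v
    rw [map_add, value_smul, value_smul]
    have h5 := mul_nonneg hεpos.le (hG2 v)
    have h6 := mul_le_mul_of_nonneg_left (F'_le v) (by positivity : (0 : ℝ) ≤ 1 + ε)
    nlinarith

/-- **Q1 is false.**  There are a totally real (even irreducible) projective variety `X ⊂ ℙⁿ` and
a face of the cone `P_X` of nonnegative quadratic forms whose relative interior contains both a
stubborn quadric and a quadric having an odd power that is a sum of squares. -/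
theorem result : ∃ (n : ℕ) (I : Ideal (MvPolynomial (Fin (n + 1)) ℝ)),
    TotallyReal I ∧ I.IsPrime ∧
    ∃ C : Set (CoordRing I), IsFace (nonnegQuadrics I) C ∧
      (∃ F ∈ relInterior C, Stubborn I 1 F) ∧
      (∃ F' ∈ relInterior C, ∃ k : ℕ, Odd k ∧ IsSOS I (1 * k) (F' ^ k)) :=
  ⟨4, surf, surf_totallyReal, surf_prime, face, face_isFace, ⟨F, F_relInt, F_stubborn⟩,
    F', F'_relInt, 3, ⟨1, rfl⟩, F'_cube⟩

end Pool.Agent.Results.MP_982b0b_ag.StubbornFaces
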